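import Pool.Agent.H937R3.EllOne

/-!
The Wiener algebra `ℓ¹(ℤ)` as a commutative Banach algebra, its Gelfand map into `C(ℝ/ℤ)` and
the mean over the circle.
-/

set_option backward.isDefEq.respectTransparency false

namespace Pool.Agent.Y283.WA

open H937R3 MeasureTheory AddCircle
open scoped ENNReal ComplexConjugate

/-- The Banach algebra `ℓ¹(ℤ)`. -/
abbrev A : Type := EllOne (Multiplicative ℤ)

/-- The point mass at `n`. -/
noncomputable def dl (n : ℤ) : A := EllOne.delta (Multiplicative.ofAdd n)

/-- The coefficient at `n`. -/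
def cf (a : A) (n : ℤ) : ℂ := EllOne.coeff a (Multiplicative.ofAdd n)

lemma norm_dl (n : ℤ) : ‖dl n‖ = 1 := EllOne.norm_delta _

lemma dl_mul (m n : ℤ) : dl m * dl n = dl (m + n) := EllOne.delta_mul_delta _ _

lemma dl_zero : dl 0 = 1 := rfl

lemma clm_ext {E : Type*} [NormedAddCommGroup E] [NormedSpace ℂ E]
    {S T : A →L[ℂ] E} (h : ∀ n, S (dl n) = T (dl n)) : S = T :=
  EllOne.clm_ext fun x => h (Multiplicative.toAdd x)

/-- Multiplication as a continuous bilinear map. -/
noncomputable def mulL : A →L[ℂ] A →L[ℂ] A := ContinuousLinearMap.mul ℂ A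

lemma mulL_apply (a b : A) : mulL a b = a * b := rfl

lemma mul_comm' (a b : A) : a * b = b * a := by
  have h : mulL = mulL.flip := by
    refine clm_ext fun m => clm_ext fun n => ?_
    rw [ContinuousLinearMap.flip_apply, mulL_apply, mulL_apply, dl_mul, dl_mul, add_comm]
  calc a * b = mulL a b := rfl
    _ = mulL.flip a b := by rw [← h]
    _ = b * a := rfl

noncomputable instance : NormedCommRing A :=
  { (inferInstance : NormedRing A) with mul_comm := mul_comm' }

instance : CompleteSpace A := inferInstanceAs (CompleteSpace (L1 (Multiplicative ℤ)))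

lemma norm_one_A : ‖(1 : A)‖ = 1 := norm_dl 0

instance : NormOneClass A := ⟨norm_one_A⟩

lemma summable_cf (a : A) : Summable fun n => ‖cf a n‖ :=
  (Multiplicative.ofAdd (α := ℤ)).summable_iff.mpr (L1.summable_norm (G := Multiplicative ℤ) a)

lemma norm_eq (a : A) : ‖a‖ = ∑' n, ‖cf a n‖ := by
  rw [EllOne.norm_eq]
  exact ((Multiplicative.ofAdd (α := ℤ)).tsum_eq fun x => ‖EllOne.coeff a x‖).symm

lemma cf_add (a b : A) (n : ℤ) : cf (a + b) n = cf a n + cf b n := rfl

lemma cf_sub (a b : A) (n : ℤ) : cf (a - b) n = cf a n - cf b n := rfl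

lemma cf_smul (c : ℂ) (a : A) (n : ℤ) : cf (c • a) n = c * cf a n := rfl

lemma cf_zero (n : ℤ) : cf 0 n = 0 := rfl

lemma cf_dl (m n : ℤ) : cf (dl m) n = if n = m then 1 else 0 :=
  (L1.delta_apply (Multiplicative.ofAdd m) (Multiplicative.ofAdd n)).trans (by
    simp)

lemma cf_ext {a b : A} (h : ∀ n, cf a n = cf b n) : a = b :=
  lp.ext (funext fun x => h (Multiplicative.toAdd x))

/-- The element with given summable coefficients. -/
noncomputable def mk (c : ℤ → ℂ) (hc : Summable fun n => ‖c n‖) : A :=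
  (⟨fun x => c (Multiplicative.toAdd x), by
    apply memℓp_gen
    have := (Multiplicative.toAdd (α := ℤ)).summable_iff.mpr hc
    simpa [Function.comp_def] using this⟩ : L1 (Multiplicative ℤ))

lemma cf_mk (c : ℤ → ℂ) (hc : Summable fun n => ‖c n‖) (n : ℤ) : cf (mk c hc) n = c n := rfl

/-- The coefficient functional. -/
noncomputable def cfL (n : ℤ) : A →L[ℂ] ℂ :=
  LinearMap.mkContinuous
    { toFun := fun a => cf a n
      map_add' := fun a b => cf_add a b n
      map_smul' := fun c a => cf_smul c a n } 1 (fun a => by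
        rw [one_mul, norm_eq]
        exact (summable_cf a).le_tsum n (fun _ _ => norm_nonneg _))

lemma cfL_apply (n : ℤ) (a : A) : cfL n a = cf a n := rfl

/-- Linear extension of a bounded family. -/
noncomputable def lift {E : Type*} [NormedAddCommGroup E] [NormedSpace ℂ E] [CompleteSpace E]
    (v : ℤ → E) (C : ℝ) (hv : ∀ n, ‖v n‖ ≤ C) : A →L[ℂ] E :=
  EllOne.lift (fun x => v (Multiplicative.toAdd x)) C (fun _ => hv _)

lemma lift_dl {E : Type*} [NormedAddCommGroup E] [NormedSpace ℂ E] [CompleteSpace E]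
    (v : ℤ → E) (C : ℝ) (hv : ∀ n, ‖v n‖ ≤ C) (n : ℤ) : lift v C hv (dl n) = v n :=
  EllOne.lift_delta _ _ _ _

lemma lift_bound {E : Type*} [NormedAddCommGroup E] [NormedSpace ℂ E] [CompleteSpace E]
    (v : ℤ → E) (C : ℝ) (hv : ∀ n, ‖v n‖ ≤ C) (a : A) : ‖lift v C hv a‖ ≤ C * ‖a‖ :=
  L1.lift_bound (G := Multiplicative ℤ) _ C (fun _ => hv _) a

lemma clm_bound {E : Type*} [NormedAddCommGroup E] [NormedSpace ℂ E] [CompleteSpace E]
    (S : A →L[ℂ] E) (C : ℝ) (h : ∀ n, ‖S (dl n)‖ ≤ C) (a : A) : ‖S a‖ ≤ C * ‖a‖ := by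
  have : S = lift (fun n => S (dl n)) C h := clm_ext fun n => (lift_dl (fun n => S (dl n)) C h n).symm
  rw [this]
  exact lift_bound _ _ _ _

/-- Continuous functions on the circle. -/
abbrev CT : Type := C(UnitAddCircle, ℂ)

/-- The Gelfand map. -/
noncomputable def hat : A →L[ℂ] CT := lift (fun n => fourier n) 1 (fun n => (fourier_norm n).le)

lemma hat_dl (n : ℤ) : hat (dl n) = fourier n := lift_dl _ _ _ _

lemma fourier_add_eq (m n : ℤ) : (fourier (m + n) : CT) = fourier m * fourier n := by
  ext t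
  exact fourier_add

lemma fourier_zero_eq : (fourier 0 : CT) = 1 := by
  ext t
  exact fourier_zero

lemma star_fourier (n : ℤ) : star (fourier n : CT) = fourier (-n) := by
  ext t
  rw [ContinuousMap.star_apply, fourier_neg]
  rfl

lemma hat_one : hat 1 = 1 := by
  rw [← dl_zero, hat_dl, fourier_zero_eq]

lemma hat_mul (a b : A) : hat (a * b) = hat a * hat b := by
  let S : A →L[ℂ] A →L[ℂ] CT := (ContinuousLinearMap.compL ℂ A A CT hat).comp mulL
  let T : A →L[ℂ] A →L[ℂ] CT :=
    ((ContinuousLinearMap.compL ℂ A CT CT).flip hat).comp ((ContinuousLinearMap.mul ℂ CT).comp hat)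
  have hS : ∀ a b, S a b = hat (a * b) := fun _ _ => rfl
  have hT : ∀ a b, T a b = hat a * hat b := fun _ _ => rfl
  have : S = T := by
    refine clm_ext fun m => clm_ext fun n => ?_
    rw [hS, hT, dl_mul, hat_dl, hat_dl, hat_dl, fourier_add_eq]
  rw [← hS, ← hT, this]

/-- The mean over the circle. -/
noncomputable def mean : CT →L[ℂ] ℂ :=
  LinearMap.mkContinuous
    { toFun := fun h => ∫ t, h t ∂haarAddCircle
      map_add' := fun g h => by
        simp only [ContinuousMap.add_apply]
        exact integral_add (g.continuous.integrable_of_hasCompactSupport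
          (HasCompactSupport.of_compactSpace _)) (h.continuous.integrable_of_hasCompactSupport
          (HasCompactSupport.of_compactSpace _))
      map_smul' := fun c h => by
        simp only [ContinuousMap.smul_apply, RingHom.id_apply]
        exact integral_smul c _ } 1 (fun h => by
      rw [one_mul]
      have := norm_integral_le_of_norm_le_const (μ := haarAddCircle) (f := fun t => h t)
        (C := ‖h‖) (Filter.Eventually.of_forall fun t => h.norm_coe_le_norm t)
      simpa using this)

lemma mean_apply (h : CT) : mean h = ∫ t, h t ∂haarAddCircle := rfl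

lemma norm_mean_le (h : CT) : ‖mean h‖ ≤ ‖h‖ := by
  have := mean.le_opNorm h
  have h2 : ‖mean‖ ≤ 1 := LinearMap.mkContinuous_norm_le _ zero_le_one _
  nlinarith [norm_nonneg h]

lemma mean_fourier (n : ℤ) : mean (fourier n) = if n = 0 then 1 else 0 := by
  have h := congrFun (fourierCoeff_fourier (T := (1 : ℝ)) n) 0
  have h2 : fourierCoeff (T := (1 : ℝ)) (fun t => (fourier n : CT) t) 0 = mean (fourier n) := by
    rw [fourierCoeff, mean_apply]
    simp
  rw [← h2]
  rw [h, Pi.single_apply]
  congr 1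
  exact propext eq_comm

lemma mean_star (h : CT) : mean (star h) = conj (mean h) := by
  rw [mean_apply, mean_apply, ← integral_conj]
  rfl

lemma mean_fourier_hat (n : ℤ) (a : A) : mean (fourier (-n) * hat a) = cf a n := by
  let S : A →L[ℂ] ℂ := mean.comp ((ContinuousLinearMap.mul ℂ CT (fourier (-n))).comp hat)
  have hS : S = cfL n := by
    refine clm_ext fun m => ?_
    have : S (dl m) = mean (fourier (-n) * hat (dl m)) := rfl
    rw [this, hat_dl, ← fourier_add_eq, mean_fourier, cfL_apply, cf_dl]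
    congr 1
    apply propext
    constructor
    · intro h; omega
    · intro h; omega
  have : S a = mean (fourier (-n) * hat a) := rfl
  rw [← this, hS, cfL_apply]

lemma fourierCoeff_hat (n : ℤ) (a : A) :
    fourierCoeff (T := (1 : ℝ)) (fun t => hat a t) n = cf a n := by
  rw [← mean_fourier_hat, fourierCoeff, mean_apply]
  rfl

/-- The key bound: a Fourier coefficient of `|c|²` is at most `‖c‖_∞ ‖c‖₁`. -/
lemma mean_fourier_sq_le (n : ℤ) (c : A) (κ : ℝ) (hκ : ∀ p, ‖cf c p‖ ≤ κ) :
    ‖mean (fourier n * (star (hat c) * hat c))‖ ≤ κ * ‖c‖ := by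
  let S : A →L[ℂ] ℂ :=
    mean.comp ((ContinuousLinearMap.mul ℂ CT (fourier n * star (hat c))).comp hat)
  have hS : ∀ b, S b = mean ((fourier n * star (hat c)) * hat b) := fun _ => rfl
  rw [← mul_assoc, ← hS]
  refine clm_bound S κ (fun p => ?_) c
  rw [hS, hat_dl]
  have e : (fourier n * star (hat c)) * (fourier p : CT)
      = star (fourier (-(n + p)) * hat c) := by
    rw [star_mul, star_fourier, neg_neg, fourier_add_eq]
    ring
  rw [e, mean_star, mean_fourier_hat, RCLike.norm_conj]
  exact hκ _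

end Pool.Agent.Y283.WA
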