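import Pool.Agent.Y283.WA.Main
import Pool.Agent.Y283.PSAbs

/-!
The circle version: inverses in the Wiener algebra of absolutely convergent Fourier series.
-/

set_option backward.isDefEq.respectTransparency false

namespace Pool.Agent.Y283.WA

open H937R3 MeasureTheory AddCircle Finset Filter Topology Polynomial

/-- The Wiener norm of a function on the circle. -/
noncomputable def wnC (f : UnitAddCircle → ℂ) : ENNReal := ∑' n : ℤ, ‖fourierCoeff f n‖ₑ

/-- The class of functions. -/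
def GG (δ : ℝ) : Set (UnitAddCircle → ℂ) :=
  {f | Continuous f ∧ wnC f = 1 ∧ ∀ t, δ ≤ ‖f t‖}

/-- The best constant. -/
noncomputable def KK (δ : ℝ) : ENNReal := ⨆ f ∈ GG δ, wnC fun t => (f t)⁻¹

lemma wnC_hat (a : A) : wnC (fun t => hat a t) = ENNReal.ofReal ‖a‖ := by
  unfold wnC
  have h : ∀ n : ℤ, ‖fourierCoeff (fun t => hat a t) n‖ₑ = ENNReal.ofReal ‖cf a n‖ := by
    intro n
    rw [ofReal_norm]
    congr 1
    exact fourierCoeff_hat n a
  rw [tsum_congr h, norm_eq, ENNReal.ofReal_tsum_of_nonneg (fun _ => norm_nonneg _) (summable_cf a)]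

lemma hat_injective {a b : A} (h : hat a = hat b) : a = b :=
  cf_ext fun n => by rw [← mean_fourier_hat, ← mean_fourier_hat, h]

lemma hasSum_hat (a : A) : HasSum (fun n : ℤ => cf a n • (fourier n : CT)) (hat a) := by
  have h1 := L1.summable_lift (G := Multiplicative ℤ) (E := CT)
    (fun x => fourier (Multiplicative.toAdd x)) 1 (fun x => (fourier_norm _).le) a
  have h2 := h1.hasSum
  have h3 : hat a = ∑' x : Multiplicative ℤ, (show L1 (Multiplicative ℤ) from a) x •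
    (fourier (Multiplicative.toAdd x) : CT) := rfl
  rw [h3]
  exact (Equiv.hasSum_iff (Multiplicative.ofAdd (α := ℤ))).mpr h2

/-- A continuous function with finite Wiener norm is in the image of the Gelfand map. -/
lemma exists_hat (f : UnitAddCircle → ℂ) (hf : Continuous f) (h : wnC f ≠ ⊤) :
    ∃ a : A, (fun t => hat a t) = f := by
  have hs : Summable fun n => ‖fourierCoeff f n‖ := by
    have h1 : (∑' n : ℤ, ENNReal.ofReal ‖fourierCoeff f n‖) ≠ ⊤ := by
      have : (∑' n : ℤ, ENNReal.ofReal ‖fourierCoeff f n‖) = wnC f := by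
        unfold wnC
        refine tsum_congr fun n => ?_
        rw [ofReal_norm]
      rw [this]
      exact h
    have h2 := ENNReal.summable_toReal h1
    refine h2.congr fun n => ?_
    rw [ENNReal.toReal_ofReal (norm_nonneg _)]
  refine ⟨mk (fourierCoeff f) hs, ?_⟩
  let F : CT := ⟨f, hf⟩
  have h1 : HasSum (fun n : ℤ => fourierCoeff F n • (fourier n : CT)) F :=
    hasSum_fourier_series_of_summable (Summable.of_norm hs)
  have h2 := hasSum_hat (mk (fourierCoeff f) hs)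
  have h3 : hat (mk (fourierCoeff f) hs) = F := h2.unique h1
  rw [h3]
  rfl

theorem KK_lt_top {δ : ℝ} (hδ : 1 / 2 < δ) : KK δ < ⊤ := by
  obtain ⟨C, hC⟩ := uniform_inverse hδ
  refine lt_of_le_of_lt (b := ENNReal.ofReal C) (iSup₂_le fun f hf => ?_) ENNReal.ofReal_lt_top
  obtain ⟨h1, h2, h3⟩ := hf
  obtain ⟨a, ha⟩ := exists_hat f h1 (by rw [h2]; exact ENNReal.one_ne_top)
  have hn : ‖a‖ = 1 := by
    rw [← ha, wnC_hat] at h2
    have := congrArg ENNReal.toReal h2
    rw [ENNReal.toReal_ofReal (norm_nonneg _), ENNReal.toReal_one] at this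
    exact this
  obtain ⟨b, hb, hbC⟩ := hC a hn fun t => by
    have := h3 t
    rw [← ha] at this
    exact this
  have h4 : (fun t => (f t)⁻¹) = fun t => hat b t := by
    funext t
    have h5 : hat a t * hat b t = 1 := by
      have h6 : hat a * hat b = 1 := by rw [← hat_mul, hb, hat_one]
      have := congrArg (fun g : CT => g t) h6
      exact this
    have h7 : f t = hat a t := by rw [← ha]
    rw [h7]
    exact inv_eq_of_mul_eq_one_right h5
  rw [h4, wnC_hat]
  exact ENNReal.ofReal_le_ofReal hbC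

/-- The embedding of polynomials. -/
noncomputable def emb : ℂ[X] →ₐ[ℂ] A := Polynomial.aeval (dl 1)

lemma dl_pow (n : ℕ) : dl 1 ^ n = dl n := by
  induction n with
  | zero => rw [pow_zero, Nat.cast_zero, dl_zero]
  | succ n ih => rw [pow_succ, ih, dl_mul]; push_cast; rfl

lemma emb_eq (p : ℂ[X]) : emb p = ∑ i ∈ range (p.natDegree + 1), p.coeff i • dl i := by
  unfold emb
  rw [Polynomial.aeval_eq_sum_range]
  refine Finset.sum_congr rfl fun i _ => ?_
  rw [dl_pow]

lemma cf_emb_nat (p : ℂ[X]) (n : ℕ) : cf (emb p) n = p.coeff n := by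
  rw [emb_eq]
  have h1 : cf (∑ i ∈ range (p.natDegree + 1), p.coeff i • dl i) n
      = ∑ i ∈ range (p.natDegree + 1), cf (p.coeff i • dl i) n := map_sum (cfL n) _ _
  rw [h1]
  have h2 : ∀ i ∈ range (p.natDegree + 1), cf (p.coeff i • dl i) n
      = if n = i then p.coeff n else 0 := by
    intro i _
    rw [cf_smul, cf_dl]
    by_cases h : n = i
    · rw [if_pos h, if_pos (by exact_mod_cast h), mul_one, h]
    · rw [if_neg h, if_neg (by exact_mod_cast h), mul_zero]
  rw [Finset.sum_congr rfl h2, Finset.sum_ite_eq]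
  split_ifs with h3
  · rfl
  · rw [Finset.mem_range, not_lt] at h3
    exact (Polynomial.coeff_eq_zero_of_natDegree_lt (by omega)).symm

lemma cf_emb_neg (p : ℂ[X]) (n : ℕ) : cf (emb p) (-(n + 1 : ℕ)) = 0 := by
  rw [emb_eq]
  have h1 : cf (∑ i ∈ range (p.natDegree + 1), p.coeff i • dl i) (-(n + 1 : ℕ))
      = ∑ i ∈ range (p.natDegree + 1), cf (p.coeff i • dl i) (-(n + 1 : ℕ)) :=
    map_sum (cfL _) _ _
  rw [h1]
  refine Finset.sum_eq_zero fun i _ => ?_
  rw [cf_smul, cf_dl, if_neg (by omega), mul_zero]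

lemma norm_emb (p : ℂ[X]) : ENNReal.ofReal ‖emb p‖ = pn (p : PowerSeries ℂ) := by
  rw [norm_eq, ENNReal.ofReal_tsum_of_nonneg (fun _ => norm_nonneg _) (summable_cf _)]
  unfold pn
  have h1 : ∀ n : ℕ, ‖PowerSeries.coeff n (p : PowerSeries ℂ)‖ₑ
      = ENNReal.ofReal ‖cf (emb p) (n : ℤ)‖ := by
    intro n
    rw [cf_emb_nat, Polynomial.coeff_coe, ofReal_norm]
  rw [tsum_congr h1]
  symm
  refine (Function.Injective.tsum_eq (f := fun m : ℤ => ENNReal.ofReal ‖cf (emb p) m‖)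
    Nat.cast_injective ?_)
  intro m hm
  rw [Function.mem_support] at hm
  by_contra hcon
  apply hm
  have h2 : m < 0 := by
    by_contra h
    push Not at h
    exact hcon ⟨m.toNat, Int.toNat_of_nonneg h⟩
  obtain ⟨n, hn⟩ : ∃ n : ℕ, m = -(n + 1 : ℕ) := ⟨(-m - 1).toNat, by omega⟩
  rw [hn, cf_emb_neg, norm_zero, ENNReal.ofReal_zero]

lemma hat_emb (p : ℂ[X]) (t : UnitAddCircle) : hat (emb p) t = p.eval (fourier 1 t) := by
  have h1 : hat (emb p) = Polynomial.aeval (fourier 1 : CT) p := by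
    unfold emb
    rw [← hatA_apply, ← Polynomial.aeval_algHom_apply, hatA_apply, hat_dl]
  rw [h1, Polynomial.aeval_eq_sum_range, Polynomial.eval_eq_sum_range]
  have h2 : ∀ (q : CT), (q : UnitAddCircle → ℂ) t = (ContinuousMap.evalCLM ℂ t) q := fun _ => rfl
  rw [h2, map_sum]
  refine Finset.sum_congr rfl fun i _ => ?_
  rfl

lemma norm_fourier_one (t : UnitAddCircle) : ‖(fourier 1 : CT) t‖ = 1 := by
  rw [fourier_apply]
  exact Circle.norm_coe _

theorem le_KK {δ δ' : ℝ} (h0 : 0 < δ) (h1 : δ < δ') (h2 : 1 / 2 < δ') (h3 : δ' < 1) :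
    ENNReal.ofReal (1 / (2 * δ' - 1)) ≤ KK δ := by
  by_cases hfin : KK δ = ⊤
  · rw [hfin]; exact le_top
  obtain ⟨B, w, hB, hw, hflat, hs⟩ := exists_flat (ε := δ' - δ) (by linarith)
  have hδ' : 0 < δ' := h0.trans h1
  rw [← ENNReal.ofReal_toReal hfin]
  apply ENNReal.ofReal_le_ofReal
  refine neumann_limit h2 h3 fun L K hL => ?_
  set p := testPoly B L w δ' with hp
  set f : UnitAddCircle → ℂ := fun t => hat (emb p) t with hf
  have hmem : f ∈ GG δ := by
    refine ⟨(hat (emb p)).continuous, ?_, fun t => ?_⟩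
    · rw [hf, wnC_hat, norm_emb, testPoly_pn hδ' h3 hB hw hs hL]
    · rw [hf]
      simp only
      rw [hat_emb]
      exact testPoly_eval h0 h1 h3 hflat hL (norm_fourier_one t).le
  have hle : wnC (fun t => (f t)⁻¹) ≤ KK δ :=
    le_iSup₂ (f := fun (f : UnitAddCircle → ℂ) (_ : f ∈ GG δ) => wnC fun t => (f t)⁻¹) _ hmem
  have hne : ∀ t, f t ≠ 0 := fun t h => by
    have := hmem.2.2 t
    rw [h, norm_zero] at this
    linarith
  obtain ⟨b, hb⟩ := exists_hat (fun t => (f t)⁻¹) (hmem.1.inv₀ hne)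
    (ne_top_of_le_ne_top hfin hle)
  have hinv : emb p * b = 1 := by
    apply hat_injective
    rw [hat_mul, hat_one]
    ext t
    have h5 : hat b t = (f t)⁻¹ := congrFun hb t
    change hat (emb p) t * hat b t = 1
    rw [h5]
    exact mul_inv_cancel₀ (hne t)
  have hbM : ENNReal.ofReal ‖b‖ ≤ KK δ := by
    rw [← wnC_hat, hb]
    exact hle
  refine neumann_lower (fun x : A => ENNReal.ofReal ‖x‖) (fun x y => ?_) (fun x y => ?_)
    (fun x => ?_) (emb : ℂ[X] →+* A) norm_emb hδ' h3 hB hw hs hL K hinv hbM hfin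
  · rw [← ENNReal.ofReal_add (norm_nonneg _) (norm_nonneg _)]
    exact ENNReal.ofReal_le_ofReal (norm_add_le _ _)
  · rw [← ENNReal.ofReal_mul (norm_nonneg _)]
    exact ENNReal.ofReal_le_ofReal (norm_mul_le _ _)
  · simp only [norm_neg]

theorem KK_top {δ : ℝ} (h1 : 0 < δ) (h2 : δ ≤ 1 / 2) : KK δ = ⊤ := by
  by_contra hfin
  set x := (KK δ).toReal with hx
  have hx0 : 0 ≤ x := ENNReal.toReal_nonneg
  set t : ℝ := 1 / (4 * (x + 1)) with ht
  have ht0 : 0 < t := by positivity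
  have ht1 : t ≤ 1 / 4 := by
    rw [ht, div_le_div_iff₀ (by positivity) (by norm_num)]
    linarith
  have h3 := le_KK (δ' := 1 / 2 + t) h1 (by linarith) (by linarith) (by linarith)
  rw [ENNReal.ofReal_le_iff_le_toReal hfin] at h3
  have h4 : 1 / (2 * (1 / 2 + t) - 1) = 2 * (x + 1) := by
    rw [ht]; field_simp; ring
  rw [h4] at h3
  linarith

theorem one_le_KK_one : 1 ≤ KK 1 := by
  have h0 : (fun _ : UnitAddCircle => (1 : ℂ)) = fun t => hat 1 t := by
    rw [hat_one]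
    rfl
  have h1 : wnC (fun _ : UnitAddCircle => (1 : ℂ)) = 1 := by
    rw [h0, wnC_hat, norm_one_A, ENNReal.ofReal_one]
  have h2 : (fun _ : UnitAddCircle => (1 : ℂ)) ∈ GG 1 := ⟨continuous_const, h1, fun t => by simp⟩
  have h3 : wnC (fun t : UnitAddCircle => ((fun _ : UnitAddCircle => (1 : ℂ)) t)⁻¹) = 1 := by
    simpa using h1
  rw [← h3]
  exact le_iSup₂ (f := fun (f : UnitAddCircle → ℂ) (_ : f ∈ GG 1) => wnC fun t => (f t)⁻¹) _ h2

/-- The lower bound `1/(2δ-1)` for the best constant on the circle. -/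
theorem KK_ge {δ : ℝ} (h1 : 1 / 2 < δ) (h2 : δ ≤ 1) :
    ENNReal.ofReal (1 / (2 * δ - 1)) ≤ KK δ := by
  rcases h2.lt_or_eq with h2 | h2
  · have t : Tendsto (fun x : ℝ => ENNReal.ofReal (1 / (2 * x - 1))) (𝓝[>] δ)
        (𝓝 (ENNReal.ofReal (1 / (2 * δ - 1)))) := by
      refine tendsto_nhdsWithin_of_tendsto_nhds ?_
      refine (ENNReal.continuous_ofReal.tendsto _).comp ?_
      refine Tendsto.div tendsto_const_nhds ?_ (by linarith)
      exact ((continuous_const.mul continuous_id).sub continuous_const).tendsto _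
    refine le_of_tendsto t ?_
    filter_upwards [Ioo_mem_nhdsGT h2] with x hx
    exact le_KK (by linarith) hx.1 (h1.trans hx.1) hx.2
  · subst h2
    have := one_le_KK_one
    norm_num
    exact this

theorem circle_delta : sInf {δ : ℝ | 0 < δ ∧ δ ≤ 1 ∧ KK δ < ⊤} = 1 / 2 := by
  have h : {δ : ℝ | 0 < δ ∧ δ ≤ 1 ∧ KK δ < ⊤} = Set.Ioc (1 / 2) 1 := by
    ext δ
    constructor
    · rintro ⟨a, b, c⟩
      refine ⟨?_, b⟩
      by_contra h
      push Not at h
      rw [KK_top a h] at c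
      exact lt_irrefl _ c
    · rintro ⟨a, b⟩
      exact ⟨by linarith, b, KK_lt_top a⟩
  rw [h]
  exact csInf_Ioc (by norm_num)

theorem circle_result :
    (∀ δ : ℝ, 1 / 2 < δ → δ ≤ 1 → ENNReal.ofReal (1 / (2 * δ - 1)) ≤ KK δ ∧ KK δ < ⊤) ∧
    (∀ δ : ℝ, 0 < δ → δ ≤ 1 / 2 → KK δ = ⊤) ∧
    sInf {δ : ℝ | 0 < δ ∧ δ ≤ 1 ∧ KK δ < ⊤} = 1 / 2 :=
  ⟨fun _ h1 h2 => ⟨KK_ge h1 h2, KK_lt_top h1⟩, fun _ h1 h2 => KK_top h1 h2, circle_delta⟩

theorem circle_threshold :
    (∀ δ : ℝ, 1 / 2 < δ → δ ≤ 1 → KK δ < ⊤) ∧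
    (∀ δ : ℝ, 0 < δ → δ ≤ 1 / 2 → KK δ = ⊤) ∧
    sInf {δ : ℝ | 0 < δ ∧ δ ≤ 1 ∧ KK δ < ⊤} = 1 / 2 :=
  ⟨fun _ h1 _ => KK_lt_top h1, fun _ h1 h2 => KK_top h1 h2, circle_delta⟩

end Pool.Agent.Y283.WA
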