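import Pool.Agent.Y283.WA.Alg

/-!
Enumeration of the coefficients of an element of `ℓ¹(ℤ)` by decreasing size.
-/

set_option backward.isDefEq.respectTransparency false

namespace Pool.Agent.Y283.WA

open Finset Filter Topology

lemma exists_max_outside {a : ℤ → ℝ} (ha : Summable a) (h0 : ∀ n, 0 ≤ a n) (s : Finset ℤ) :
    ∃ n, n ∉ s ∧ ∀ p, p ∉ s → a p ≤ a n := by
  by_cases h : ∃ n, n ∉ s ∧ 0 < a n
  · obtain ⟨n0, hn0, hpos⟩ := h
    have ht := ha.tendsto_cofinite_zero
    have hev : ∀ᶠ n in cofinite, a n < a n0 := ht.eventually_lt_const hpos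
    rw [Filter.eventually_cofinite] at hev
    have hfin : {n | ¬ a n < a n0}.Finite := hev
    have hne : (hfin.toFinset \ s).Nonempty := ⟨n0, by
      rw [Finset.mem_sdiff, Set.Finite.mem_toFinset]
      exact ⟨by simp, hn0⟩⟩
    obtain ⟨n, hn, hmax⟩ := Finset.exists_max_image (hfin.toFinset \ s) a hne
    rw [Finset.mem_sdiff] at hn
    refine ⟨n, hn.2, fun p hp => ?_⟩
    by_cases hp2 : a p < a n0
    · have := hmax n0 (by
        rw [Finset.mem_sdiff, Set.Finite.mem_toFinset]
        exact ⟨by simp, hn0⟩)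
      linarith
    · exact hmax p (by
        rw [Finset.mem_sdiff, Set.Finite.mem_toFinset]
        exact ⟨hp2, hp⟩)
  · push Not at h
    obtain ⟨n, hn⟩ := Infinite.exists_notMem_finset s
    exact ⟨n, hn, fun p hp => (h p hp).trans (h0 n)⟩

lemma exists_enum (a : A) : ∃ g : ℕ → ℤ, Function.Injective g ∧
    ∀ i n, n ∉ (range i).image g → ‖cf a n‖ ≤ ‖cf a (g i)‖ := by
  classical
  have h := exists_max_outside (summable_cf a) (fun n => norm_nonneg _)
  choose pick hpick hmax using h
  let G : ℕ → Finset ℤ := fun i => Nat.rec ∅ (fun _ s => insert (pick s) s) i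
  have G0 : G 0 = ∅ := rfl
  have GS : ∀ i, G (i + 1) = insert (pick (G i)) (G i) := fun i => rfl
  have himg : ∀ i, G i = (range i).image (fun j => pick (G j)) := by
    intro i
    induction i with
    | zero => simp [G0]
    | succ i ih =>
      rw [GS, Finset.range_add_one, Finset.image_insert, ← ih]
  refine ⟨fun j => pick (G j), ?_, ?_⟩
  · intro i j hij
    simp only at hij
    by_contra hne
    rcases lt_or_gt_of_ne hne with h | h
    · apply hpick (G j)
      rw [← hij, himg j]
      exact Finset.mem_image_of_mem (fun j => pick (G j)) (Finset.mem_range.mpr h)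
    · apply hpick (G i)
      rw [hij, himg i]
      exact Finset.mem_image_of_mem (fun j => pick (G j)) (Finset.mem_range.mpr h)
  · intro i n hn
    rw [← himg i] at hn
    exact hmax (G i) n hn

/-- What remains after removing the coefficients at `g 0, …, g (m-1)`. -/
noncomputable def rest (a : A) (g : ℕ → ℤ) (m : ℕ) : A :=
  a - ∑ i ∈ range m, cf a (g i) • dl (g i)

lemma cf_sum {ι : Type*} (s : Finset ι) (x : ι → A) (n : ℤ) :
    cf (∑ i ∈ s, x i) n = ∑ i ∈ s, cf (x i) n :=
  map_sum (cfL n) x s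

lemma cf_rest (a : A) {g : ℕ → ℤ} (hg : Function.Injective g) (m : ℕ) (n : ℤ) :
    cf (rest a g m) n = if n ∈ (range m).image g then 0 else cf a n := by
  unfold rest
  rw [cf_sub, cf_sum]
  have h1 : ∀ i ∈ range m, cf (cf a (g i) • dl (g i)) n = if n = g i then cf a n else 0 := by
    intro i _
    rw [cf_smul, cf_dl]
    split_ifs with h
    · rw [h, mul_one]
    · rw [mul_zero]
  rw [Finset.sum_congr rfl h1]
  split_ifs with h
  · obtain ⟨j, hj, rfl⟩ := Finset.mem_image.mp h
    rw [Finset.sum_eq_single j]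
    · simp
    · intro b _ hb
      rw [if_neg (fun h => hb (hg h.symm))]
    · intro h; exact absurd hj h
  · rw [Finset.sum_eq_zero, sub_zero]
    intro i hi
    rw [if_neg]
    rintro rfl
    exact h (Finset.mem_image_of_mem g hi)

lemma norm_rest (a : A) {g : ℕ → ℤ} (hg : Function.Injective g) (m : ℕ) :
    ‖rest a g m‖ + ∑ i ∈ range m, ‖cf a (g i)‖ = ‖a‖ := by
  classical
  have hs := summable_cf a
  have h1 : ∑ i ∈ range m, ‖cf a (g i)‖ = ∑' n, if n ∈ (range m).image g then ‖cf a n‖ else 0 := by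
    rw [tsum_eq_sum (s := (range m).image g)]
    · rw [Finset.sum_image (fun x _ y _ h => hg h)]
      refine Finset.sum_congr rfl fun i hi => ?_
      rw [if_pos (Finset.mem_image_of_mem g hi)]
    · intro n hn
      rw [if_neg hn]
  have h2 : Summable fun n => if n ∈ (range m).image g then ‖cf a n‖ else 0 :=
    summable_of_ne_finset_zero (s := (range m).image g) fun n hn => if_neg hn
  rw [h1, norm_eq, norm_eq, ← (summable_cf (rest a g m)).tsum_add h2]
  refine tsum_congr fun n => ?_
  rw [cf_rest a hg]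
  split_ifs <;> simp

lemma cf_rest_le (a : A) {g : ℕ → ℤ} (hg : Function.Injective g)
    (hmax : ∀ i n, n ∉ (range i).image g → ‖cf a n‖ ≤ ‖cf a (g i)‖) (m : ℕ) (n : ℤ) :
    (m : ℝ) * ‖cf (rest a g m) n‖ ≤ ‖a‖ := by
  rw [cf_rest a hg]
  split_ifs with h
  · simp
  · have h1 : ∀ i ∈ range m, ‖cf a n‖ ≤ ‖cf a (g i)‖ := by
      intro i hi
      apply hmax
      intro hn
      apply h
      refine Finset.image_subset_image ?_ hn
      rw [Finset.range_subset_range]
      exact (Finset.mem_range.mp hi).le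
    have h2 := Finset.sum_le_sum h1
    rw [Finset.sum_const, Finset.card_range, nsmul_eq_mul] at h2
    have h3 := norm_rest a hg m
    have h4 := norm_nonneg (rest a g m)
    linarith

lemma sum_cf_le (a : A) {g : ℕ → ℤ} (hg : Function.Injective g) (m : ℕ) :
    ∑ i ∈ range m, ‖cf a (g i)‖ ≤ ‖a‖ := by
  have h3 := norm_rest a hg m
  have h4 := norm_nonneg (rest a g m)
  linarith

end Pool.Agent.Y283.WA
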