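import Pool.Agent.Y283.WA.Semi
import Pool.Agent.Y283.WA.Top

/-!
Uniform bound for inverses in `ℓ¹(ℤ)` above the threshold `1/2`.
-/

set_option backward.isDefEq.respectTransparency false

namespace Pool.Agent.Y283.WA

open BoundedContinuousFunction MeasureTheory AddCircle Finset Filter Topology
open scoped ComplexConjugate ComplexOrder

/-- The sequence of norms. -/
noncomputable def nrm (x : B) : SS :=
  bs (fun k => ((‖x k‖ : ℝ) : ℂ)) ‖x‖ (fun k => by
    rw [Complex.norm_real, norm_norm]; exact x.norm_coe_le_norm k)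

lemma nrm_apply (x : B) (k : ℕ) : nrm x k = ((‖x k‖ : ℝ) : ℂ) := rfl

/-- The sequence of moduli. -/
noncomputable def ab (α : SS) : SS :=
  bs (fun k => ((‖α k‖ : ℝ) : ℂ)) ‖α‖ (fun k => by
    rw [Complex.norm_real, norm_norm]; exact α.norm_coe_le_norm k)

lemma ab_apply (α : SS) (k : ℕ) : ab α k = ((‖α k‖ : ℝ) : ℂ) := rfl

variable (χ : B →ₐ[ℂ] ℂ)

lemma om_ab (α : SS) : om χ (ab α) = ((‖om χ α‖ : ℝ) : ℂ) := by
  have h1 : 0 ≤ om χ (ab α) := om_nonneg χ fun k => by
    rw [ab_apply]; exact_mod_cast norm_nonneg _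
  have h2 : om χ (ab α) * om χ (ab α) = ((‖om χ α‖ ^ 2 : ℝ) : ℂ) := by
    rw [← map_mul, ← om_normsq]
    congr 1
    ext k
    rw [BoundedContinuousFunction.mul_apply, BoundedContinuousFunction.mul_apply,
      BoundedContinuousFunction.star_apply, ab_apply, Complex.star_def, mul_comm (conj (α k)),
      Complex.mul_conj, Complex.normSq_eq_norm_sq, sq]
    push_cast
    rfl
  rw [Complex.le_def] at h1
  have h3 : om χ (ab α) = (((om χ (ab α)).re : ℝ) : ℂ) := by
    apply Complex.ext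
    · simp
    · simpa using h1.2.symm
  set x := (om χ (ab α)).re with hx
  have hx0 : 0 ≤ x := by simpa using h1.1
  rw [h3] at h2 ⊢
  have h4 : x * x = ‖om χ α‖ ^ 2 := by exact_mod_cast h2
  have h5 : x = ‖om χ α‖ := by
    have := norm_nonneg (om χ α)
    nlinarith
  rw [h5]

lemma norm_chi_le_om (x : B) : ‖χ x‖ ≤ (om χ (nrm x)).re := by
  have h0 : 0 ≤ om χ (nrm x) := om_nonneg χ fun k => by
    rw [nrm_apply]; exact_mod_cast norm_nonneg _
  rw [Complex.le_def] at h0
  have h3 : om χ (nrm x) = (((om χ (nrm x)).re : ℝ) : ℂ) := by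
    apply Complex.ext
    · simp
    · simpa using h0.2.symm
  set r := (om χ (nrm x)).re with hr
  have hr0 : 0 ≤ r := by simpa using h0.1
  refine le_of_forall_pos_le_add fun ε hε => ?_
  let x' : B := bs (fun k => (((‖x k‖ + ε)⁻¹ : ℝ) : ℂ) • x k) 1 (fun k => by
    have hp : 0 < ‖x k‖ + ε := by positivity
    rw [norm_smul, Complex.norm_real, Real.norm_eq_abs, abs_of_pos (inv_pos.mpr hp),
      inv_mul_le_iff₀ hp]
    linarith)
  have hx' : iota (nrm x + algebraMap ℂ SS (ε : ℂ)) * x' = x := by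
    apply BoundedContinuousFunction.ext
    intro k
    rw [BoundedContinuousFunction.mul_apply, iota_apply, ← Algebra.smul_def]
    have h1 : (nrm x + algebraMap ℂ SS (ε : ℂ)) k = ((‖x k‖ + ε : ℝ) : ℂ) := by
      rw [BoundedContinuousFunction.add_apply, nrm_apply]
      push_cast
      rfl
    have h2 : x' k = (((‖x k‖ + ε)⁻¹ : ℝ) : ℂ) • x k := rfl
    have hp : (‖x k‖ + ε) ≠ 0 := by positivity
    rw [h1, h2, smul_smul, ← Complex.ofReal_mul, mul_inv_cancel₀ hp, Complex.ofReal_one, one_smul]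
  have h4 : ‖x'‖ ≤ 1 := (BoundedContinuousFunction.norm_le zero_le_one).mpr fun k => by
    have hp : 0 < ‖x k‖ + ε := by positivity
    have h2 : x' k = (((‖x k‖ + ε)⁻¹ : ℝ) : ℂ) • x k := rfl
    rw [h2, norm_smul, Complex.norm_real, Real.norm_eq_abs, abs_of_pos (inv_pos.mpr hp),
      inv_mul_le_iff₀ hp]
    linarith
  have h5 : χ x = om χ (nrm x + algebraMap ℂ SS (ε : ℂ)) * χ x' := by
    conv_lhs => rw [← hx']
    rw [map_mul, om_apply]
  rw [h5, map_add, AlgHom.commutes, h3, norm_mul]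
  have h6 : ‖((r : ℂ) + algebraMap ℂ ℂ (ε : ℂ))‖ = r + ε := by
    have : ((r : ℂ) + algebraMap ℂ ℂ (ε : ℂ)) = ((r + ε : ℝ) : ℂ) := by
      push_cast; rfl
    rw [this, Complex.norm_real, Real.norm_eq_abs, abs_of_nonneg (by linarith)]
  rw [h6]
  have h7 := (norm_chi_le χ x').trans h4
  exact mul_le_of_le_one_right (by linarith) h7

section
variable {W : CS}

lemma sn_Yh (g : ℕ → ℤ) : sn χ W (Yh g) = sn χ W 1 := by
  unfold sn qf
  have : star (Yh g) * Yh g = star 1 * 1 := by
    rw [star_Yh, ← Yh_add, neg_add_cancel, Yh_zero, star_one, mul_one]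
  rw [this]

lemma chi_smul_tw (g : ℕ → ℤ) : χ (Y g) • tw χ g = Yh g := by
  unfold tw
  rw [smul_smul, Complex.mul_conj, Complex.normSq_eq_norm_sq, norm_chi_Y]
  simp

end

/-- The main estimate: a character of the algebra of bounded sequences in `ℓ¹(ℤ)` is bounded
below on sequences of unit vectors with Gelfand transforms bounded below by `δ`. -/
theorem chi_lower {δ : ℝ} (hδ : 0 ≤ δ) (F : B) (hF : ∀ k, ‖F k‖ = 1)
    (hFδ : ∀ k t, δ ≤ ‖hat (F k) t‖) : 2 * δ - 1 ≤ ‖χ F‖ := by
  classical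
  choose g hg hmax using fun k => exists_enum (F k)
  let γ : ℕ → ℕ → ℤ := fun i k => g k i
  let α : ℕ → SS := fun i => bs (fun k => cf (F k) (g k i)) 1 (fun k => by
    rw [← hF k, norm_eq]
    exact (summable_cf (F k)).le_tsum _ (fun _ _ => norm_nonneg _))
  have hα : ∀ i k, α i k = cf (F k) (g k i) := fun _ _ => rfl
  let D : ℕ → B := fun m => ∑ i ∈ range m, iota (α i) * Y (γ i)
  let C : ℕ → B := fun m => F - D m
  have hC : ∀ m k, C m k = rest (F k) (g k) m := by
    intro m k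
    have h1 : D m k = ∑ i ∈ range m, cf (F k) (g k i) • dl (g k i) := by
      have h2 : D m k = ∑ i ∈ range m, (iota (α i) * Y (γ i)) k := by
        change (∑ i ∈ range m, iota (α i) * Y (γ i)) k = _
        exact BoundedContinuousFunction.sum_apply _ _ _
      rw [h2]
      refine Finset.sum_congr rfl fun i _ => ?_
      rw [BoundedContinuousFunction.mul_apply, iota_apply, hα, ← Algebra.smul_def, Y_apply]
    change F k - D m k = _
    rw [h1]
    rfl
  set s : ℕ → ℝ := fun i => ‖om χ (α i)‖ with hs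
  -- the sequence of norms of `C m`
  have hnrm : ∀ m, nrm (C m) = 1 - ∑ i ∈ range m, ab (α i) := by
    intro m
    ext k
    have h1 := norm_rest (F k) (hg k) m
    rw [hF k] at h1
    have h2 : (1 - ∑ i ∈ range m, ab (α i)) k = 1 - ∑ i ∈ range m, (ab (α i)) k := by
      rw [BoundedContinuousFunction.sub_apply, BoundedContinuousFunction.sum_apply]
      rfl
    rw [h2, nrm_apply, hC]
    have h3 : ∑ i ∈ range m, (ab (α i)) k = ((∑ i ∈ range m, ‖cf (F k) (g k i)‖ : ℝ) : ℂ) := by
      push_cast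
      refine Finset.sum_congr rfl fun i _ => ?_
      rw [ab_apply, hα]
    have h5 : ‖rest (F k) (g k) m‖ = 1 - ∑ i ∈ range m, ‖cf (F k) (g k i)‖ := by linarith
    rw [h3, h5, Complex.ofReal_sub, Complex.ofReal_one]
  have hom : ∀ m, om χ (nrm (C m)) = ((1 - ∑ i ∈ range m, s i : ℝ) : ℂ) := by
    intro m
    rw [hnrm, map_sub, map_one, map_sum]
    push_cast
    congr 1
    refine Finset.sum_congr rfl fun i _ => ?_
    rw [om_ab]
  have hsum : ∀ m, ∑ i ∈ range m, s i ≤ 1 := by
    intro m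
    have h1 : 0 ≤ om χ (nrm (C m)) := om_nonneg χ fun k => by
      rw [nrm_apply]; exact_mod_cast norm_nonneg _
    rw [hom] at h1
    have : (0 : ℝ) ≤ 1 - ∑ i ∈ range m, s i := by exact_mod_cast h1
    linarith
  have hs0 : ∀ i, 0 ≤ s i := fun i => norm_nonneg _
  have hchiC : ∀ m, ‖χ (C m)‖ ≤ 1 - ∑ i ∈ range m, s i := by
    intro m
    have := norm_chi_le_om χ (C m)
    rw [hom, Complex.ofReal_re] at this
    exact this
  have hchiD : ∀ m, χ (D m) = ∑ i ∈ range m, om χ (α i) * χ (Y (γ i)) := by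
    intro m
    change χ (∑ i ∈ range m, iota (α i) * Y (γ i)) = _
    rw [map_sum]
    refine Finset.sum_congr rfl fun i _ => ?_
    rw [map_mul, om_apply]
  have hchiD' : ∀ m, ‖χ (D m)‖ ≤ ∑ i ∈ range m, s i := by
    intro m
    rw [hchiD]
    refine (norm_sum_le _ _).trans (Finset.sum_le_sum fun i _ => ?_)
    rw [norm_mul, norm_chi_Y, mul_one]
  have hfin : ∀ m, 2 * ‖χ (D m)‖ - 1 ≤ ‖χ F‖ := by
    intro m
    have h1 : χ F = χ (D m) + χ (C m) := by
      rw [← map_add]
      congr 1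
      change F = D m + (F - D m)
      rw [add_sub_cancel]
    have h2 : ‖χ (D m)‖ ≤ ‖χ F‖ + ‖χ (C m)‖ := by
      have : χ (D m) = χ F - χ (C m) := by rw [h1, add_sub_cancel_right]
      rw [this]
      exact norm_sub_le _ _
    have h3 := hchiC m
    have h4 := hchiD' m
    linarith
  -- main step
  have hmain : ∀ ε : ℝ, 0 < ε → ∃ m, δ - 3 * ε ≤ ‖χ (D m)‖ := by
    intro ε hε
    obtain ⟨R, hR⟩ : ∃ R : ℕ, 4 / ε ^ 2 < R := exists_nat_gt _
    have hR0 : (0 : ℝ) < R := lt_trans (by positivity) hR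
    have hRpos : 0 < R := by exact_mod_cast hR0
    have hR2 : Real.sqrt (4 * (R : ℝ)⁻¹) ≤ ε := by
      rw [Real.sqrt_le_left hε.le]
      rw [div_lt_iff₀ (by positivity)] at hR
      rw [← div_eq_mul_inv, div_le_iff₀ hR0]
      linarith
    have hsummable : Summable s :=
      summable_of_sum_range_le hs0 hsum
    obtain ⟨m, hm⟩ : ∃ m : ℕ, ∀ m', m ≤ m' → ∑ i ∈ Finset.Ico m m', s i ≤ ε := by
      have h1 := hsummable.hasSum.tendsto_sum_nat
      have h2 : ∀ᶠ m in atTop, (∑' i, s i) - ε < ∑ i ∈ range m, s i :=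
        h1.eventually_const_lt (by linarith)
      obtain ⟨m, hm⟩ := h2.exists
      refine ⟨m, fun m' hm' => ?_⟩
      rw [Finset.sum_Ico_eq_sub _ hm']
      have h3 := hsummable.sum_le_tsum (range m') (fun i _ => hs0 i)
      linarith
    obtain ⟨N, hN⟩ : ∃ N : ℕ, (R : ℝ) ^ m / ε ^ 2 < N := exists_nat_gt _
    set m' := max m (N + 1) with hm'def
    have hm' : m ≤ m' := le_max_left _ _
    have hm'N : (N : ℝ) ≤ m' := by
      have : N ≤ m' := (Nat.le_succ N).trans (le_max_right _ _)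
      exact_mod_cast this
    have hm'pos : (0 : ℝ) < m' := by
      have : 0 < m' := lt_of_lt_of_le (Nat.succ_pos N) (le_max_right _ _)
      exact_mod_cast this
    refine ⟨m, ?_⟩
    set W : CS := WF χ R γ (range m) with hWdef
    have hW : ∀ p, 0 ≤ W p := WF_nonneg χ R γ (range m)
    set τ := sn χ W 1 with hτ
    have hτ0 : 0 ≤ τ := sn_nonneg χ 1
    have hTW : TT χ W = ((τ ^ 2 : ℝ) : ℂ) := by
      have h1 : 0 ≤ TT χ W := TT_nonneg χ hW
      rw [Complex.le_def] at h1
      rw [hτ, sn_one_sq χ hW]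
      apply Complex.ext
      · simp
      · simpa using h1.2.symm
    have hτ1 : 1 ≤ τ := by
      have h1 := one_le_TT_WF χ hRpos γ (range m)
      rw [← hWdef, hTW] at h1
      have h2 : (1 : ℝ) ≤ τ ^ 2 := by exact_mod_cast h1
      nlinarith
    -- decomposition
    have hdec : hatB F = (χ (D m)) • (1 : CS)
        + ∑ i ∈ range m, (iotaC (α i) * Yh (γ i) - (om χ (α i) * χ (Y (γ i))) • (1 : CS))
        + ∑ i ∈ Finset.Ico m m', iotaC (α i) * Yh (γ i) + hatB (C m') := by
      have h1 : ∀ j, hatB (D j) = ∑ i ∈ range j, iotaC (α i) * Yh (γ i) := by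
        intro j
        change hatB (∑ i ∈ range j, iota (α i) * Y (γ i)) = _
        rw [map_sum]
        refine Finset.sum_congr rfl fun i _ => ?_
        rw [map_mul, hatB_iota]
        rfl
      have h2 : hatB F = hatB (D m') + hatB (C m') := by
        rw [← map_add]
        congr 1
        change F = D m' + (F - D m')
        rw [add_sub_cancel]
      rw [h2, h1, hchiD, Finset.sum_sub_distrib, ← Finset.sum_smul,
        Finset.sum_Ico_eq_sub _ hm']
      abel
    have hb1 : sn χ W (χ (D m) • (1 : CS)) = ‖χ (D m)‖ * τ := sn_smul χ _ _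
    have hb2 : sn χ W (∑ i ∈ range m,
        (iotaC (α i) * Yh (γ i) - (om χ (α i) * χ (Y (γ i))) • (1 : CS))) ≤ ε * τ := by
      refine (sn_sum_le χ hW _ _).trans ?_
      have h1 : ∀ i ∈ range m, sn χ W
          (iotaC (α i) * Yh (γ i) - (om χ (α i) * χ (Y (γ i))) • (1 : CS)) ≤ s i * (ε * τ) := by
        intro i hi
        have e1 : iotaC (α i) * Yh (γ i) - (om χ (α i) * χ (Y (γ i))) • (1 : CS)
            = iotaC (α i - algebraMap ℂ SS (om χ (α i))) * Yh (γ i)
              + (om χ (α i) * χ (Y (γ i))) • (tw χ (γ i) - 1) := by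
          rw [map_sub, AlgHom.commutes, sub_mul, ← Algebra.smul_def (om χ (α i)), smul_sub,
            mul_smul, mul_smul, chi_smul_tw]
          abel
        rw [e1]
        refine (sn_add_le χ hW _ _).trans ?_
        rw [sn_iotaC χ hW, map_sub, AlgHom.commutes]
        have e2 : om χ (α i) - algebraMap ℂ ℂ (om χ (α i)) = 0 := sub_self _
        rw [e2, norm_zero, zero_mul, zero_add, sn_smul, norm_mul, norm_chi_Y, mul_one]
        refine mul_le_mul_of_nonneg_left ?_ (hs0 i)
        have e3 := TT_WF_tw_le χ hRpos γ hi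
        rw [← hWdef, TT_sq_eq χ hW, hTW] at e3
        have e5 : 4 * (R : ℂ)⁻¹ * ((τ ^ 2 : ℝ) : ℂ) = ((4 * (R : ℝ)⁻¹ * τ ^ 2 : ℝ) : ℂ) := by
          push_cast
          rfl
        rw [e5] at e3
        have e4 : qf χ W (tw χ (γ i) - 1) ≤ 4 * (R : ℝ)⁻¹ * τ ^ 2 := Complex.real_le_real.mp e3
        unfold sn
        refine (Real.sqrt_le_sqrt e4).trans ?_
        rw [Real.sqrt_mul (by positivity), Real.sqrt_sq hτ0]
        exact mul_le_mul_of_nonneg_right hR2 hτ0
      refine (Finset.sum_le_sum h1).trans ?_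
      rw [← Finset.sum_mul]
      exact mul_le_of_le_one_left (by positivity) (hsum m)
    have hb3 : sn χ W (∑ i ∈ Finset.Ico m m', iotaC (α i) * Yh (γ i)) ≤ ε * τ := by
      refine (sn_sum_le χ hW _ _).trans ?_
      have h1 : ∀ i ∈ Finset.Ico m m', sn χ W (iotaC (α i) * Yh (γ i)) = s i * τ := by
        intro i _
        rw [sn_iotaC χ hW, sn_Yh χ]
      rw [Finset.sum_congr rfl h1, ← Finset.sum_mul]
      exact mul_le_mul_of_nonneg_right (hm m' hm') hτ0
    have hb4 : sn χ W (hatB (C m')) ≤ ε := by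
      have h1 := TT_WF_small χ hRpos γ (range m) (C m') (κ := 1 / m') (by positivity)
        (fun k p => by
          rw [hC, le_div_iff₀ hm'pos, mul_comm, ← hF k]
          exact cf_rest_le (F k) (hg k) (hmax k) m' p)
        (fun k => by
          rw [hC]
          have h1 := norm_rest (F k) (hg k) m'
          have h2 : 0 ≤ ∑ i ∈ range m', ‖cf (F k) (g k i)‖ :=
            Finset.sum_nonneg fun _ _ => norm_nonneg _
          rw [hF k] at h1
          linarith) 0
      rw [tw_zero, mul_one, ← hWdef, TT_sq_eq χ hW, Complex.norm_real, Real.norm_eq_abs,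
        abs_of_nonneg (qf_nonneg χ hW _), Finset.card_range] at h1
      unfold sn
      rw [Real.sqrt_le_left hε.le]
      refine h1.trans ?_
      rw [mul_one_div, div_le_iff₀ hm'pos]
      rw [div_lt_iff₀ (by positivity)] at hN
      have : ε ^ 2 * N ≤ ε ^ 2 * m' := mul_le_mul_of_nonneg_left hm'N (by positivity)
      linarith
    have hlow : δ * τ ≤ sn χ W (hatB F) := sn_le_of_ge χ hW hδ fun p => by
      have := hFδ p.1 p.2
      exact this
    have htot : sn χ W (hatB F) ≤ ‖χ (D m)‖ * τ + ε * τ + ε * τ + ε := by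
      rw [hdec]
      refine (sn_add_le χ hW _ _).trans (add_le_add ?_ hb4)
      refine (sn_add_le χ hW _ _).trans (add_le_add ?_ hb3)
      refine (sn_add_le χ hW _ _).trans (add_le_add ?_ hb2)
      exact hb1.le
    have h9 : δ * τ ≤ (‖χ (D m)‖ + 3 * ε) * τ := by nlinarith
    have h10 := le_of_mul_le_mul_right h9 (by linarith : (0 : ℝ) < τ)
    linarith
  refine le_of_forall_pos_le_add fun η hη => ?_
  obtain ⟨m, hm⟩ := hmain (η / 6) (by positivity)
  have := hfin m
  linarith

/-- Above the threshold `1/2` the norms of inverses in `ℓ¹(ℤ)` are uniformly bounded. -/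
theorem uniform_inverse {δ : ℝ} (hδ : 1 / 2 < δ) : ∃ C : ℝ, ∀ a : A, ‖a‖ = 1 →
    (∀ t, δ ≤ ‖hat a t‖) → ∃ b : A, a * b = 1 ∧ ‖b‖ ≤ C := by
  by_contra hcon
  push Not at hcon
  choose F hF hFδ hFb using fun k : ℕ => hcon (k : ℝ)
  let G : B := bs F 1 (fun k => (hF k).le)
  have hG : ∀ k, G k = F k := fun _ => rfl
  by_cases hu : IsUnit G
  · obtain ⟨H, hH⟩ := hu.exists_right_inv
    obtain ⟨k, hk⟩ := exists_nat_ge ‖H‖
    have h1 : F k * H k = 1 := by
      rw [← hG, ← BoundedContinuousFunction.mul_apply, hH]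
      rfl
    have h2 := hFb k (H k) h1
    have h3 := H.norm_coe_le_norm k
    linarith
  · obtain ⟨χ, hχ⟩ := WeakDual.CharacterSpace.exists_apply_eq_zero hu
    let χ' : B →ₐ[ℂ] ℂ := WeakDual.CharacterSpace.toAlgHom χ
    have h1 := chi_lower χ' (δ := δ) (by linarith) G (fun k => hF k) (fun k t => hFδ k t)
    have h2 : χ' G = 0 := hχ
    rw [h2, norm_zero] at h1
    linarith

end Pool.Agent.Y283.WA
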