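import Pool.Agent.Y283.WA.Weight

/-!
The seminorm attached to a weight.
-/

set_option backward.isDefEq.respectTransparency false

namespace Pool.Agent.Y283.WA

open BoundedContinuousFunction MeasureTheory AddCircle Finset
open scoped ComplexConjugate ComplexOrder

variable (χ : B →ₐ[ℂ] ℂ)

/-- The quadratic form of a weight. -/
noncomputable def qf (W x : CS) : ℝ := (TT χ (W * (star x * x))).re

/-- The polarised form. -/
noncomputable def bf (W x y : CS) : ℝ := (TT χ (W * (star x * y))).re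

/-- The seminorm of a weight. -/
noncomputable def sn (W x : CS) : ℝ := Real.sqrt (qf χ W x)

variable {W : CS} (hW : ∀ p, 0 ≤ W p)

include hW

lemma star_W : star W = W := by
  ext p
  have h := hW p
  rw [Complex.le_def] at h
  rw [BoundedContinuousFunction.star_apply, Complex.star_def, Complex.conj_eq_iff_im]
  simpa using h.2.symm

lemma TT_sq_nonneg (x : CS) : 0 ≤ TT χ (W * (star x * x)) := by
  apply TT_nonneg
  intro p
  change 0 ≤ W p * (conj (x p) * x p)
  refine mul_nonneg (hW p) ?_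
  rw [mul_comm, Complex.mul_conj]
  exact_mod_cast Complex.normSq_nonneg _

lemma qf_nonneg (x : CS) : 0 ≤ qf χ W x := by
  have := TT_sq_nonneg χ hW x
  rw [Complex.le_def] at this
  simpa [qf] using this.1

lemma TT_sq_eq (x : CS) : TT χ (W * (star x * x)) = (qf χ W x : ℂ) := by
  have := TT_sq_nonneg χ hW x
  rw [Complex.le_def] at this
  apply Complex.ext
  · simp [qf]
  · simpa using this.2.symm

lemma bf_symm (x y : CS) : bf χ W y x = bf χ W x y := by
  unfold bf
  have h : W * (star y * x) = star (W * (star x * y)) := by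
    rw [star_mul, star_mul, star_star, star_W hW]
    ring
  rw [h, TT_star, Complex.conj_re]

lemma qf_add (x y : CS) : qf χ W (x + y) = qf χ W x + qf χ W y + 2 * bf χ W x y := by
  have h : W * (star (x + y) * (x + y)) = W * (star x * x) + W * (star y * y)
      + (W * (star x * y) + W * (star y * x)) := by
    rw [star_add]; ring
  have h2 := bf_symm χ hW x y
  unfold qf bf at *
  rw [h, map_add, map_add, map_add, Complex.add_re, Complex.add_re, Complex.add_re, h2]
  ring

omit hW in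
lemma bf_smul (t : ℝ) (x y : CS) : bf χ W x ((t : ℂ) • y) = t * bf χ W x y := by
  unfold bf
  rw [mul_smul_comm, mul_smul_comm, map_smul, smul_eq_mul, Complex.re_ofReal_mul]

omit hW in
lemma qf_smul (c : ℂ) (x : CS) : qf χ W (c • x) = ‖c‖ ^ 2 * qf χ W x := by
  unfold qf
  rw [star_smul, smul_mul_smul_comm, mul_smul_comm, map_smul, smul_eq_mul]
  have : star c * c = ((‖c‖ ^ 2 : ℝ) : ℂ) := by
    rw [Complex.star_def, mul_comm, Complex.mul_conj, Complex.normSq_eq_norm_sq]
  rw [this, Complex.re_ofReal_mul]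

lemma cs_ineq (x y : CS) : bf χ W x y ^ 2 ≤ qf χ W x * qf χ W y := by
  have h : ∀ t : ℝ, 0 ≤ qf χ W y * (t * t) + 2 * bf χ W x y * t + qf χ W x := by
    intro t
    have h1 := qf_nonneg χ hW (x + (t : ℂ) • y)
    rw [qf_add χ hW, bf_smul, qf_smul] at h1
    have h2 : ‖(t : ℂ)‖ ^ 2 = t * t := by
      rw [Complex.norm_real, Real.norm_eq_abs, sq_abs, sq]
    rw [h2] at h1
    linarith
  have h3 := discrim_le_zero h
  unfold discrim at h3
  nlinarith

lemma sn_add_le (x y : CS) : sn χ W (x + y) ≤ sn χ W x + sn χ W y := by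
  have h1 := cs_ineq χ hW x y
  have hx := qf_nonneg χ hW x
  have hy := qf_nonneg χ hW y
  unfold sn
  rw [Real.sqrt_le_left (by positivity), qf_add χ hW]
  have h2 : bf χ W x y ≤ Real.sqrt (qf χ W x) * Real.sqrt (qf χ W y) := by
    rw [← Real.sqrt_mul hx]
    exact Real.le_sqrt_of_sq_le h1
  have e1 := Real.sq_sqrt hx
  have e2 := Real.sq_sqrt hy
  nlinarith

lemma sn_sum_le {ι : Type*} (s : Finset ι) (x : ι → CS) :
    sn χ W (∑ i ∈ s, x i) ≤ ∑ i ∈ s, sn χ W (x i) := by
  classical
  induction s using Finset.induction_on with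
  | empty => simp [sn, qf]
  | insert i s hi ih =>
    rw [Finset.sum_insert hi, Finset.sum_insert hi]
    exact (sn_add_le χ hW _ _).trans (add_le_add le_rfl ih)

omit hW in
lemma sn_nonneg (x : CS) : 0 ≤ sn χ W x := Real.sqrt_nonneg _

omit hW in
lemma sn_smul (c : ℂ) (x : CS) : sn χ W (c • x) = ‖c‖ * sn χ W x := by
  unfold sn
  rw [qf_smul, Real.sqrt_mul (by positivity), Real.sqrt_sq (norm_nonneg _)]

omit hW in
lemma sn_neg (x : CS) : sn χ W (-x) = sn χ W x := by
  unfold sn qf
  rw [star_neg, neg_mul_neg]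

omit hW in
lemma om_normsq (α : SS) : om χ (star α * α) = ((‖om χ α‖ ^ 2 : ℝ) : ℂ) := by
  rw [map_mul, om_star, mul_comm, Complex.mul_conj, Complex.normSq_eq_norm_sq]

lemma sn_iotaC (α : SS) (x : CS) : sn χ W (iotaC α * x) = ‖om χ α‖ * sn χ W x := by
  have h : qf χ W (iotaC α * x) = ‖om χ α‖ ^ 2 * qf χ W x := by
    have e : W * (star (iotaC α * x) * (iotaC α * x))
        = iotaC (star α * α) * (W * (star x * x)) := by
      have e1 : star (iotaC α) = iotaC (star α) := by
        refine CS_ext fun k => ?_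
        rw [sl_star, iotaC_apply, iotaC_apply, BoundedContinuousFunction.star_apply]
        ext t
        rfl
      rw [star_mul, e1, map_mul]
      ring
    unfold qf
    rw [e, TT_smul, om_normsq χ, Complex.re_ofReal_mul]
  unfold sn
  rw [h, Real.sqrt_mul (by positivity), Real.sqrt_sq (norm_nonneg _)]

lemma sn_one_sq : sn χ W 1 ^ 2 = (TT χ W).re := by
  unfold sn
  rw [Real.sq_sqrt (qf_nonneg χ hW 1)]
  unfold qf
  rw [star_one, mul_one, mul_one]

lemma sn_le_of_ge {x : CS} {δ : ℝ} (hδ : 0 ≤ δ) (h : ∀ p, δ ≤ ‖x p‖) :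
    δ * sn χ W 1 ≤ sn χ W x := by
  have h1 : (0 : ℂ) ≤ TT χ (W * (star x * x - ((δ ^ 2 : ℝ) : ℂ) • (star 1 * 1))) := by
    apply TT_nonneg
    intro p
    change 0 ≤ W p * (conj (x p) * x p - ((δ ^ 2 : ℝ) : ℂ) * (conj 1 * 1))
    refine mul_nonneg (hW p) ?_
    rw [mul_comm (conj (x p)), Complex.mul_conj, Complex.normSq_eq_norm_sq, map_one, mul_one,
      mul_one, sub_nonneg]
    have := h p
    have h2 : δ ^ 2 ≤ ‖x p‖ ^ 2 := pow_le_pow_left₀ hδ this 2
    exact_mod_cast h2
  rw [mul_sub, map_sub, mul_smul_comm, map_smul, TT_sq_eq χ hW, TT_sq_eq χ hW, smul_eq_mul] at h1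
  have h2 : (0 : ℝ) ≤ qf χ W x - δ ^ 2 * qf χ W 1 := by exact_mod_cast h1
  unfold sn
  have h3 : δ * Real.sqrt (qf χ W 1) = Real.sqrt (δ ^ 2 * qf χ W 1) := by
    rw [Real.sqrt_mul (by positivity), Real.sqrt_sq hδ]
  rw [h3]
  exact Real.sqrt_le_sqrt (by linarith)

end Pool.Agent.Y283.WA
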