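import Pool.Agent.Y283.WA.Alg

/-!
The positive functional attached to a character of the algebra of bounded sequences in `ℓ¹(ℤ)`.
-/

set_option backward.isDefEq.respectTransparency false

namespace Pool.Agent.Y283.WA

open BoundedContinuousFunction MeasureTheory AddCircle
open scoped ComplexConjugate ComplexOrder

/-- Bounded sequences in the Wiener algebra. -/
abbrev B : Type := ℕ →ᵇ A

/-- Bounded scalar sequences. -/
abbrev SS : Type := ℕ →ᵇ ℂ

/-- Bounded sequences of continuous functions on the circle. -/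
abbrev CS : Type := (ℕ × UnitAddCircle) →ᵇ ℂ

/-- A bounded sequence from a bound. -/
noncomputable def bs {E : Type*} [SeminormedAddCommGroup E] (x : ℕ → E) (C : ℝ)
    (h : ∀ k, ‖x k‖ ≤ C) : ℕ →ᵇ E :=
  BoundedContinuousFunction.ofNormedAddCommGroup x continuous_of_discreteTopology C h

@[simp] lemma bs_apply {E : Type*} [SeminormedAddCommGroup E] (x : ℕ → E) (C : ℝ)
    (h : ∀ k, ‖x k‖ ≤ C) (k : ℕ) : bs x C h k = x k := rfl

/-- Scalar sequences in `B`. -/
noncomputable def iota : SS →ₐ[ℂ] B :=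
  AlgHom.compLeftContinuousBounded ℂ (Algebra.ofId ℂ A) (C := 1)
    (LipschitzWith.of_dist_le_mul fun x y => by
      rw [dist_eq_norm, dist_eq_norm, ← map_sub, NNReal.coe_one, one_mul]
      change ‖algebraMap ℂ A (x - y)‖ ≤ _
      rw [norm_algebraMap']) 

lemma iota_apply (α : SS) (k : ℕ) : iota α k = algebraMap ℂ A (α k) := rfl

/-- The `k`-th function of a sequence. -/
noncomputable def sl (h : CS) (k : ℕ) : CT :=
  ⟨fun t => h (k, t), h.continuous.comp (by fun_prop)⟩

lemma sl_apply (h : CS) (k : ℕ) (t : UnitAddCircle) : sl h k t = h (k, t) := rfl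

lemma CS_ext {g h : CS} (H : ∀ k, sl g k = sl h k) : g = h := by
  ext ⟨k, t⟩
  have := congrArg (fun f : CT => f t) (H k)
  exact this

lemma sl_mul (g h : CS) (k : ℕ) : sl (g * h) k = sl g k * sl h k := rfl

lemma sl_add (g h : CS) (k : ℕ) : sl (g + h) k = sl g k + sl h k := rfl

lemma sl_sub (g h : CS) (k : ℕ) : sl (g - h) k = sl g k - sl h k := rfl

lemma sl_smul (c : ℂ) (h : CS) (k : ℕ) : sl (c • h) k = c • sl h k := rfl

lemma sl_star (h : CS) (k : ℕ) : sl (star h) k = star (sl h k) := rfl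

lemma sl_one (k : ℕ) : sl 1 k = 1 := rfl

lemma norm_sl_le (h : CS) (k : ℕ) : ‖sl h k‖ ≤ ‖h‖ :=
  (ContinuousMap.norm_le _ (norm_nonneg _)).mpr fun t => h.norm_coe_le_norm (k, t)

/-- A bounded sequence of continuous functions. -/
noncomputable def cs (x : ℕ → CT) (C : ℝ) (h : ∀ k, ‖x k‖ ≤ C) : CS :=
  BoundedContinuousFunction.ofNormedAddCommGroup (fun p : ℕ × UnitAddCircle => x p.1 p.2)
    (continuous_prod_of_discrete_left.mpr fun k => (x k).continuous) C
    (fun p => ((x p.1).norm_coe_le_norm p.2).trans (h p.1))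

lemma sl_cs (x : ℕ → CT) (C : ℝ) (h : ∀ k, ‖x k‖ ≤ C) (k : ℕ) : sl (cs x C h) k = x k := rfl

/-- Scalar sequences in `CS`. -/
noncomputable def iotaC : SS →ₐ[ℂ] CS where
  toFun α := cs (fun k => algebraMap ℂ CT (α k)) ‖α‖ (fun k => by
    rw [norm_algebraMap']; exact α.norm_coe_le_norm k)
  map_one' := rfl
  map_mul' _ _ := rfl
  map_zero' := rfl
  map_add' _ _ := rfl
  commutes' _ := rfl

lemma iotaC_apply (α : SS) (k : ℕ) : sl (iotaC α) k = algebraMap ℂ CT (α k) := rfl

/-- The Gelfand map as an algebra homomorphism. -/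
noncomputable def hatA : A →ₐ[ℂ] CT := AlgHom.ofLinearMap hat.toLinearMap hat_one hat_mul

lemma hatA_apply (a : A) : hatA a = hat a := rfl

lemma norm_hat_le (a : A) : ‖hat a‖ ≤ ‖a‖ := by
  have := clm_bound hat 1 (fun n => by rw [hat_dl]; exact (fourier_norm n).le) a
  simpa using this

/-- The Gelfand map on sequences, as a function. -/
noncomputable def hatF (x : B) : CS :=
  cs (fun k => hat (x k)) ‖x‖ (fun k => (norm_hat_le _).trans (x.norm_coe_le_norm k))

lemma sl_hatF (x : B) (k : ℕ) : sl (hatF x) k = hat (x k) := rfl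

/-- The Gelfand map on sequences. -/
noncomputable def hatB : B →ₐ[ℂ] CS where
  toFun := hatF
  map_one' := CS_ext fun k => by
    rw [sl_hatF, sl_one]
    exact hat_one
  map_mul' x y := CS_ext fun k => by
    rw [sl_hatF, sl_mul, sl_hatF, sl_hatF, BoundedContinuousFunction.mul_apply, hat_mul]
  map_zero' := CS_ext fun k => by
    rw [sl_hatF]
    exact map_zero hat
  map_add' x y := CS_ext fun k => by
    rw [sl_hatF, sl_add, sl_hatF, sl_hatF, BoundedContinuousFunction.add_apply, map_add]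
  commutes' c := CS_ext fun k => by
    rw [sl_hatF]
    change hat (algebraMap ℂ A c) = algebraMap ℂ CT c
    rw [← hatA_apply, AlgHom.commutes]

lemma hatB_apply (x : B) (k : ℕ) : sl (hatB x) k = hat (x k) := rfl

lemma hatB_iota (α : SS) : hatB (iota α) = iotaC α :=
  CS_ext fun k => by
    rw [hatB_apply, iota_apply, ← hatA_apply, AlgHom.commutes, iotaC_apply]

/-- Monomials in `B`. -/
noncomputable def Y (g : ℕ → ℤ) : B := bs (fun k => dl (g k)) 1 (fun _ => (norm_dl _).le)

lemma Y_apply (g : ℕ → ℤ) (k : ℕ) : Y g k = dl (g k) := rfl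

lemma Y_add (g h : ℕ → ℤ) : Y (g + h) = Y g * Y h := by
  apply BoundedContinuousFunction.ext
  intro k
  rw [BoundedContinuousFunction.mul_apply, Y_apply, Y_apply, Y_apply, dl_mul, Pi.add_apply]

lemma Y_zero : Y 0 = 1 := by
  apply BoundedContinuousFunction.ext
  intro k
  rw [Y_apply, Pi.zero_apply, dl_zero]
  rfl

lemma norm_Y_le (g : ℕ → ℤ) : ‖Y g‖ ≤ 1 :=
  (BoundedContinuousFunction.norm_le zero_le_one).mpr fun k => (norm_dl (g k)).le

/-- Monomials in `CS`. -/
noncomputable def Yh (g : ℕ → ℤ) : CS := hatB (Y g)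

lemma Yh_apply (g : ℕ → ℤ) (k : ℕ) : sl (Yh g) k = fourier (g k) := by
  rw [Yh, hatB_apply, Y_apply, hat_dl]

lemma Yh_add (g h : ℕ → ℤ) : Yh (g + h) = Yh g * Yh h := by
  rw [Yh, Y_add, map_mul]; rfl

lemma Yh_zero : Yh 0 = 1 := by rw [Yh, Y_zero, map_one]

lemma star_Yh (g : ℕ → ℤ) : star (Yh g) = Yh (-g) :=
  CS_ext fun k => by
    rw [sl_star, Yh_apply, Yh_apply, star_fourier, Pi.neg_apply]

/-- Means. -/
noncomputable def meanS : CS →ₗ[ℂ] SS where
  toFun h := bs (fun k => mean (sl h k)) ‖h‖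
    (fun k => (norm_mean_le _).trans (norm_sl_le h k))
  map_add' g h := by
    apply BoundedContinuousFunction.ext
    intro k
    change mean (sl (g + h) k) = mean (sl g k) + mean (sl h k)
    rw [sl_add, map_add]
  map_smul' c h := by
    apply BoundedContinuousFunction.ext
    intro k
    change mean (sl (c • h) k) = c • mean (sl h k)
    rw [sl_smul, map_smul]

lemma meanS_apply (h : CS) (k : ℕ) : meanS h k = mean (sl h k) := rfl

/-- The indicator of the zero set of `g`. -/
noncomputable def ind (g : ℕ → ℤ) : SS :=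
  bs (fun k => if g k = 0 then 1 else 0) 1 (fun k => by split_ifs <;> simp)

lemma ind_apply (g : ℕ → ℤ) (k : ℕ) : ind g k = if g k = 0 then 1 else 0 := rfl

lemma meanS_Yh (g : ℕ → ℤ) : meanS (Yh g) = ind g := by
  ext k
  rw [meanS_apply, Yh_apply, mean_fourier, ind_apply]

lemma iota_ind_mul (g : ℕ → ℤ) : iota (ind g) * Y g = iota (ind g) := by
  apply BoundedContinuousFunction.ext
  intro k
  rw [BoundedContinuousFunction.mul_apply, iota_apply, ind_apply, Y_apply]
  split_ifs with h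
  · rw [h, dl_zero, mul_one]
  · rw [map_zero, zero_mul]

variable (χ : B →ₐ[ℂ] ℂ)

/-- The restriction of the character to scalar sequences. -/
noncomputable def om : SS →ₐ[ℂ] ℂ := χ.comp iota

lemma om_apply (α : SS) : om χ α = χ (iota α) := rfl

lemma om_star (α : SS) : om χ (star α) = conj (om χ α) := map_star (om χ) α

lemma om_nonneg {α : SS} (h : ∀ k, 0 ≤ α k) : 0 ≤ om χ α := by
  -- `α = star s * s`
  let s : SS := bs (fun k => ((Real.sqrt (α k).re : ℝ) : ℂ)) (Real.sqrt ‖α‖) (fun k => by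
    rw [Complex.norm_real, Real.norm_eq_abs, abs_of_nonneg (Real.sqrt_nonneg _)]
    apply Real.sqrt_le_sqrt
    exact (Complex.re_le_norm _).trans (α.norm_coe_le_norm k))
  have hs : α = star s * s := by
    ext k
    rw [BoundedContinuousFunction.mul_apply, BoundedContinuousFunction.star_apply]
    have h1 := h k
    rw [Complex.le_def] at h1
    have h2 : α k = ((α k).re : ℂ) := by
      apply Complex.ext
      · simp
      · simpa using h1.2.symm
    have h3 : (0 : ℝ) ≤ (α k).re := by simpa using h1.1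
    have h4 : s k = ((Real.sqrt (α k).re : ℝ) : ℂ) := rfl
    rw [h4]
    conv_lhs => rw [h2]
    rw [Complex.star_def, Complex.conj_ofReal, ← Complex.ofReal_mul, Real.mul_self_sqrt h3]
  rw [hs, map_mul, om_star, mul_comm, Complex.mul_conj]
  exact_mod_cast Complex.normSq_nonneg _

lemma om_mono {α β : SS} (h : ∀ k, α k ≤ β k) : om χ α ≤ om χ β := by
  rw [← sub_nonneg, ← map_sub]
  apply om_nonneg
  intro k
  rw [BoundedContinuousFunction.sub_apply]
  exact sub_nonneg.mpr (h k)

lemma norm_om_le (α : SS) : ‖om χ α‖ ≤ ‖α‖ := AlgHom.norm_apply_le_self (om χ) α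

lemma norm_chi_le (x : B) : ‖χ x‖ ≤ ‖x‖ := AlgHom.norm_apply_le_self χ x

lemma norm_chi_Y (g : ℕ → ℤ) : ‖χ (Y g)‖ = 1 := by
  have h1 : ‖χ (Y g)‖ ≤ 1 := (norm_chi_le χ _).trans (norm_Y_le g)
  have h2 : ‖χ (Y (-g))‖ ≤ 1 := (norm_chi_le χ _).trans (norm_Y_le _)
  have h3 : ‖χ (Y g)‖ * ‖χ (Y (-g))‖ = 1 := by
    rw [← norm_mul, ← map_mul, ← Y_add, add_neg_cancel, Y_zero, map_one, norm_one]
  nlinarith [norm_nonneg (χ (Y g)), norm_nonneg (χ (Y (-g)))]

/-- The positive functional. -/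
noncomputable def TT : CS →ₗ[ℂ] ℂ := (om χ).toLinearMap ∘ₗ meanS

lemma TT_apply (h : CS) : TT χ h = om χ (meanS h) := rfl

lemma TT_star (h : CS) : TT χ (star h) = conj (TT χ h) := by
  rw [TT_apply, TT_apply, ← om_star]
  congr 1
  ext k
  rw [BoundedContinuousFunction.star_apply, meanS_apply, meanS_apply, sl_star, mean_star]
  rfl

lemma mean_nonneg {h : CT} (hh : ∀ t, 0 ≤ h t) : 0 ≤ mean h := by
  rw [mean_apply]
  have h1 : ∀ t, h t = (((h t).re : ℝ) : ℂ) := fun t => by
    have := hh t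
    rw [Complex.le_def] at this
    apply Complex.ext
    · simp
    · simpa using this.2.symm
  have h2 : ∫ t, h t ∂haarAddCircle = ((∫ t, (h t).re ∂haarAddCircle : ℝ) : ℂ) := by
    rw [integral_congr_ae (Filter.Eventually.of_forall h1)]
    exact integral_ofReal
  rw [h2]
  have h3 : 0 ≤ ∫ t, (h t).re ∂haarAddCircle :=
    integral_nonneg fun t => by
      have := hh t
      rw [Complex.le_def] at this
      simpa using this.1
  exact_mod_cast h3

lemma TT_nonneg {h : CS} (hh : ∀ p, 0 ≤ h p) : 0 ≤ TT χ h := by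
  rw [TT_apply]
  exact om_nonneg χ fun k => mean_nonneg fun t => hh (k, t)

lemma TT_smul (α : SS) (h : CS) : TT χ (iotaC α * h) = om χ α * TT χ h := by
  rw [TT_apply, TT_apply, ← map_mul]
  congr 1
  ext k
  rw [BoundedContinuousFunction.mul_apply, meanS_apply, sl_mul,
    meanS_apply, iotaC_apply, ← Algebra.smul_def, map_smul, smul_eq_mul]

lemma TT_one : TT χ 1 = 1 := by
  rw [TT_apply, ← Yh_zero, meanS_Yh]
  have : ind 0 = 1 := by
    ext k
    rw [ind_apply]
    simp
  rw [this, map_one]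

lemma norm_TT_le {h : CS} {κ : ℝ} (hκ : 0 ≤ κ) (hh : ∀ k, ‖mean (sl h k)‖ ≤ κ) : ‖TT χ h‖ ≤ κ := by
  rw [TT_apply]
  exact (norm_om_le χ _).trans ((BoundedContinuousFunction.norm_le hκ).mpr hh)

/-- Twisted monomials. -/
noncomputable def tw (g : ℕ → ℤ) : CS := conj (χ (Y g)) • Yh g

lemma tw_add (g h : ℕ → ℤ) : tw χ (g + h) = tw χ g * tw χ h := by
  unfold tw
  rw [Y_add, map_mul, map_mul, Yh_add, smul_mul_smul_comm]

lemma tw_zero : tw χ 0 = 1 := by
  unfold tw
  rw [Y_zero, map_one, map_one, Yh_zero, one_smul]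

lemma chi_Y_neg (g : ℕ → ℤ) : χ (Y (-g)) = conj (χ (Y g)) := by
  have h1 : χ (Y g) * χ (Y (-g)) = 1 := by
    rw [← map_mul, ← Y_add, add_neg_cancel, Y_zero, map_one]
  have h2 : χ (Y g) * conj (χ (Y g)) = 1 := by
    rw [Complex.mul_conj, Complex.normSq_eq_norm_sq, norm_chi_Y]
    simp
  have h3 : χ (Y g) ≠ 0 := by
    intro h
    have := norm_chi_Y χ g
    rw [h, norm_zero] at this
    norm_num at this
  exact mul_left_cancel₀ h3 (h1.trans h2.symm)

lemma star_tw (g : ℕ → ℤ) : star (tw χ g) = tw χ (-g) := by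
  unfold tw
  rw [star_smul, star_Yh, chi_Y_neg]
  rfl

lemma TT_tw (g : ℕ → ℤ) : TT χ (tw χ g) = om χ (ind g) := by
  have h1 : om χ (ind g) * χ (Y g) = om χ (ind g) := by
    rw [om_apply, ← map_mul, iota_ind_mul]
  have h2 : χ (Y g) * conj (χ (Y g)) = 1 := by
    rw [Complex.mul_conj, Complex.normSq_eq_norm_sq, norm_chi_Y]
    simp
  rw [tw, map_smul, TT_apply, meanS_Yh, smul_eq_mul]
  calc conj (χ (Y g)) * om χ (ind g) = conj (χ (Y g)) * (om χ (ind g) * χ (Y g)) := by rw [h1]
    _ = om χ (ind g) * (χ (Y g) * conj (χ (Y g))) := by ring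
    _ = _ := by rw [h2, mul_one]

lemma TT_tw_nonneg (g : ℕ → ℤ) : 0 ≤ TT χ (tw χ g) := by
  rw [TT_tw]
  apply om_nonneg
  intro k
  rw [ind_apply]
  split_ifs <;> simp

end Pool.Agent.Y283.WA
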