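import Pool.Agent.Y283.WA.State

/-!
Fejér weights concentrating near the values of a character.
-/

set_option backward.isDefEq.respectTransparency false

namespace Pool.Agent.Y283.WA

open BoundedContinuousFunction MeasureTheory AddCircle Finset
open scoped ComplexConjugate ComplexOrder

variable (χ : B →ₐ[ℂ] ℂ)

lemma tw_pow (g : ℕ → ℤ) (n : ℕ) : tw χ g ^ n = tw χ (n • g) := by
  induction n with
  | zero => rw [pow_zero, zero_smul, tw_zero]
  | succ n ih => rw [pow_succ, ih, succ_nsmul, tw_add]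

/-- The Dirichlet sum. -/
noncomputable def Di (R : ℕ) (g : ℕ → ℤ) : CS := ∑ n ∈ range R, tw χ g ^ n

/-- The Fejér factor. -/
noncomputable def Fe (R : ℕ) (g : ℕ → ℤ) : CS :=
  ((R : ℂ)⁻¹) • (star (Di χ R g) * Di χ R g)

lemma Fe_eq (R : ℕ) (g : ℕ → ℤ) :
    Fe χ R g = ((R : ℂ)⁻¹) • ∑ a ∈ range R, ∑ b ∈ range R, tw χ (-(a • g) + b • g) := by
  unfold Fe Di
  congr 1
  rw [star_sum, Finset.sum_mul_sum]
  refine Finset.sum_congr rfl fun a _ => Finset.sum_congr rfl fun b _ => ?_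
  rw [tw_add, ← tw_pow, ← star_tw, ← tw_pow]

/-- Positivity against all twisted monomials. -/
def Pos (h : CS) : Prop := ∀ g : ℕ → ℤ, 0 ≤ TT χ (h * tw χ g)

lemma Pos_one : Pos χ 1 := fun g => by rw [one_mul]; exact TT_tw_nonneg χ g

lemma TT_mul_Fe (h : CS) (R : ℕ) (g : ℕ → ℤ) (x : CS) :
    TT χ (h * Fe χ R g * x)
      = (R : ℂ)⁻¹ * ∑ a ∈ range R, ∑ b ∈ range R, TT χ (h * tw χ (-(a • g) + b • g) * x) := by
  rw [Fe_eq, mul_smul_comm, smul_mul_assoc, map_smul, smul_eq_mul]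
  congr 1
  rw [Finset.mul_sum, Finset.sum_mul, map_sum]
  refine Finset.sum_congr rfl fun a _ => ?_
  rw [Finset.mul_sum, Finset.sum_mul, map_sum]

lemma inv_nonneg' (R : ℕ) : (0 : ℂ) ≤ (R : ℂ)⁻¹ := by
  have : ((R : ℂ)⁻¹) = (((R : ℝ)⁻¹ : ℝ) : ℂ) := by push_cast; rfl
  rw [this]
  exact_mod_cast inv_nonneg.mpr (Nat.cast_nonneg R)

lemma Pos_Fe {h : CS} (hh : Pos χ h) (R : ℕ) (g : ℕ → ℤ) : Pos χ (h * Fe χ R g) := by
  intro g'
  rw [TT_mul_Fe]
  refine mul_nonneg (inv_nonneg' R) (Finset.sum_nonneg fun a _ => Finset.sum_nonneg fun b _ => ?_)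
  rw [mul_assoc, ← tw_add]
  exact hh _

lemma TT_le_mul_Fe {h : CS} (hh : Pos χ h) {R : ℕ} (hR : 0 < R) (g : ℕ → ℤ) :
    TT χ h ≤ TT χ (h * Fe χ R g) := by
  have h1 := TT_mul_Fe χ h R g 1
  rw [mul_one] at h1
  rw [h1]
  have hRc : (R : ℂ) ≠ 0 := by exact_mod_cast hR.ne'
  have h2 : TT χ h = (R : ℂ)⁻¹ * ∑ a ∈ range R, TT χ h := by
    rw [Finset.sum_const, Finset.card_range, nsmul_eq_mul, ← mul_assoc, inv_mul_cancel₀ hRc,
      one_mul]
  conv_lhs => rw [h2]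
  refine mul_le_mul_of_nonneg_left (Finset.sum_le_sum fun a ha => ?_) (inv_nonneg' R)
  have h3 : TT χ h = TT χ (h * tw χ (-(a • g) + a • g) * 1) := by
    rw [neg_add_cancel, tw_zero, mul_one, mul_one]
  rw [h3]
  refine Finset.single_le_sum (f := fun b => TT χ (h * tw χ (-(a • g) + b • g) * 1))
    (fun b _ => ?_) ha
  rw [mul_one]
  exact hh _

lemma norm_tw_apply (g : ℕ → ℤ) (p : ℕ × UnitAddCircle) : ‖tw χ g p‖ = 1 := by
  have h1 : tw χ g p = conj (χ (Y g)) * fourier (g p.1) p.2 := by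
    have h2 : tw χ g p = conj (χ (Y g)) * (sl (Yh g) p.1) p.2 := rfl
    rw [h2, Yh_apply]
  rw [h1, norm_mul, RCLike.norm_conj, norm_chi_Y, one_mul]
  rw [fourier_apply]
  exact Circle.norm_coe _

lemma Fe_apply (R : ℕ) (g : ℕ → ℤ) (p : ℕ × UnitAddCircle) :
    Fe χ R g p = (R : ℂ)⁻¹ * (conj (Di χ R g p) * Di χ R g p) := rfl

lemma Fe_nonneg (R : ℕ) (g : ℕ → ℤ) (p : ℕ × UnitAddCircle) : 0 ≤ Fe χ R g p := by
  rw [Fe_apply]
  refine mul_nonneg (inv_nonneg' R) ?_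
  rw [mul_comm, Complex.mul_conj]
  exact_mod_cast Complex.normSq_nonneg _

/-- Evaluation at a point as a ring homomorphism. -/
noncomputable def ev (p : ℕ × UnitAddCircle) : CS →+* ℂ where
  toFun h := h p
  map_one' := rfl
  map_mul' _ _ := rfl
  map_zero' := rfl
  map_add' _ _ := rfl

lemma ev_apply (p : ℕ × UnitAddCircle) (h : CS) : ev p h = h p := rfl

lemma Di_apply (R : ℕ) (g : ℕ → ℤ) (p : ℕ × UnitAddCircle) :
    Di χ R g p = ∑ n ∈ range R, (tw χ g p) ^ n := by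
  rw [← ev_apply, Di, map_sum]
  refine Finset.sum_congr rfl fun n _ => ?_
  rw [map_pow, ev_apply]

/-- The pointwise bound `|u - 1|² F ≤ 4 / R`. -/
lemma Fe_bound {R : ℕ} (g : ℕ → ℤ) (p : ℕ × UnitAddCircle) :
    Fe χ R g p * (conj (tw χ g p - 1) * (tw χ g p - 1)) ≤ (4 * (R : ℂ)⁻¹) := by
  set u := tw χ g p with hu
  have hn : ‖u‖ = 1 := norm_tw_apply χ g p
  have h1 : Di χ R g p * (u - 1) = u ^ R - 1 := by
    rw [Di_apply]
    exact geom_sum_mul u R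
  have h2 : Fe χ R g p * (conj (u - 1) * (u - 1))
      = (R : ℂ)⁻¹ * (conj (u ^ R - 1) * (u ^ R - 1)) := by
    rw [Fe_apply, ← h1, map_mul]
    ring
  rw [h2, mul_comm (4 : ℂ)]
  refine mul_le_mul_of_nonneg_left ?_ (inv_nonneg' R)
  rw [mul_comm, Complex.mul_conj, Complex.normSq_eq_norm_sq]
  have h3 : ‖u ^ R - 1‖ ≤ 2 := by
    refine (norm_sub_le _ _).trans ?_
    rw [norm_pow, hn, one_pow, norm_one]
    norm_num
  have h4 : ‖u ^ R - 1‖ ^ 2 ≤ 4 := by nlinarith [norm_nonneg (u ^ R - 1)]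
  exact_mod_cast h4

/-- The product weight. -/
noncomputable def WF (R : ℕ) (g : ℕ → ℕ → ℤ) (s : Finset ℕ) : CS := ∏ i ∈ s, Fe χ R (g i)

lemma WF_insert (R : ℕ) (g : ℕ → ℕ → ℤ) {s : Finset ℕ} {i : ℕ} (hi : i ∉ s) :
    WF χ R g (insert i s) = WF χ R g s * Fe χ R (g i) := by
  unfold WF
  rw [Finset.prod_insert hi, mul_comm]

lemma Pos_WF (R : ℕ) (g : ℕ → ℕ → ℤ) (s : Finset ℕ) : Pos χ (WF χ R g s) := by
  induction s using Finset.induction_on with
  | empty => simpa [WF] using Pos_one χ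
  | insert i s hi ih =>
    rw [WF_insert χ R g hi]
    exact Pos_Fe χ ih R (g i)

lemma WF_nonneg (R : ℕ) (g : ℕ → ℕ → ℤ) (s : Finset ℕ) (p : ℕ × UnitAddCircle) :
    0 ≤ WF χ R g s p := by
  rw [← ev_apply, WF, map_prod]
  exact Finset.prod_nonneg fun i _ => Fe_nonneg χ R (g i) p

lemma one_le_TT_WF {R : ℕ} (hR : 0 < R) (g : ℕ → ℕ → ℤ) (s : Finset ℕ) :
    1 ≤ TT χ (WF χ R g s) := by
  induction s using Finset.induction_on with
  | empty => simp [WF, TT_one]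
  | insert i s hi ih =>
    rw [WF_insert χ R g hi]
    exact ih.trans (TT_le_mul_Fe χ (Pos_WF χ R g s) hR (g i))

lemma TT_WF_tw_le {R : ℕ} (hR : 0 < R) (g : ℕ → ℕ → ℤ) {s : Finset ℕ} {i : ℕ} (hi : i ∈ s) :
    TT χ (WF χ R g s * (star (tw χ (g i) - 1) * (tw χ (g i) - 1)))
      ≤ 4 * (R : ℂ)⁻¹ * TT χ (WF χ R g s) := by
  have h1 : WF χ R g s = WF χ R g (s.erase i) * Fe χ R (g i) := by
    rw [← WF_insert χ R g (Finset.notMem_erase i s), Finset.insert_erase hi]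
  have h4 : (0 : ℂ) ≤ 4 * (R : ℂ)⁻¹ := mul_nonneg (by norm_num) (inv_nonneg' R)
  have h2 : TT χ (WF χ R g s * (star (tw χ (g i) - 1) * (tw χ (g i) - 1)))
      ≤ 4 * (R : ℂ)⁻¹ * TT χ (WF χ R g (s.erase i)) := by
    rw [← sub_nonneg, ← smul_eq_mul (4 * (R : ℂ)⁻¹), ← map_smul, ← map_sub]
    apply TT_nonneg
    intro p
    rw [← ev_apply, map_sub, sub_nonneg, h1, map_mul, map_mul, ev_apply, ev_apply, ev_apply,
      ev_apply]
    change WF χ R g (s.erase i) p * Fe χ R (g i) p *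
      (conj (tw χ (g i) p - 1) * (tw χ (g i) p - 1)) ≤ 4 * (R : ℂ)⁻¹ * WF χ R g (s.erase i) p
    rw [mul_assoc, mul_comm (4 * (R : ℂ)⁻¹)]
    exact mul_le_mul_of_nonneg_left (Fe_bound χ (g i) p) (WF_nonneg χ R g _ p)
  refine h2.trans (mul_le_mul_of_nonneg_left ?_ h4)
  conv_rhs => rw [h1]
  exact TT_le_mul_Fe χ (Pos_WF χ R g _) hR (g i)

/-- The contribution of a part with small coefficients. -/
lemma TT_WF_small {R : ℕ} (hR : 0 < R) (g : ℕ → ℕ → ℤ) (s : Finset ℕ) (c : B) {κ : ℝ}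
    (hκ : 0 ≤ κ) (hc : ∀ k p, ‖cf (c k) p‖ ≤ κ) (hc1 : ∀ k, ‖c k‖ ≤ 1) :
    ∀ g' : ℕ → ℤ, ‖TT χ (WF χ R g s * tw χ g' * (star (hatB c) * hatB c))‖
      ≤ (R : ℝ) ^ s.card * κ := by
  induction s using Finset.induction_on with
  | empty =>
    intro g'
    simp only [WF, Finset.prod_empty, Finset.card_empty, pow_zero, one_mul]
    rw [tw, smul_mul_assoc, map_smul, norm_smul, RCLike.norm_conj, norm_chi_Y, one_mul]
    refine norm_TT_le χ hκ fun k => ?_
    have h1 : sl (Yh g' * (star (hatB c) * hatB c)) k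
        = fourier (g' k) * (star (hat (c k)) * hat (c k)) := by
      rw [sl_mul, sl_mul, Yh_apply, sl_star, hatB_apply]
    rw [h1]
    refine (mean_fourier_sq_le _ _ κ (hc k)).trans ?_
    exact mul_le_of_le_one_right hκ (hc1 k)
  | insert i s hi ih =>
    intro g'
    have hR' : (0 : ℝ) < R := by exact_mod_cast hR
    rw [WF_insert χ R g hi, mul_assoc, TT_mul_Fe, norm_mul, norm_inv, Complex.norm_natCast,
      Finset.card_insert_of_notMem hi]
    have h1 : ‖∑ a ∈ range R, ∑ b ∈ range R, TT χ (WF χ R g s * tw χ (-(a • g i) + b • g i) *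
        (tw χ g' * (star (hatB c) * hatB c)))‖ ≤ ∑ a ∈ range R, ∑ b ∈ range R,
          (R : ℝ) ^ s.card * κ := by
      refine norm_sum_le_of_le _ fun a _ => norm_sum_le_of_le _ fun b _ => ?_
      have h2 : WF χ R g s * tw χ (-(a • g i) + b • g i) *
          (tw χ g' * (star (hatB c) * hatB c)) = WF χ R g s * tw χ (-(a • g i) + b • g i + g') *
          (star (hatB c) * hatB c) := by
        rw [tw_add χ _ g']
        ring
      rw [h2]
      exact ih _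
    refine (mul_le_mul_of_nonneg_left h1 (by positivity)).trans ?_
    simp only [Finset.sum_const, Finset.card_range, nsmul_eq_mul]
    apply le_of_eq
    field_simp
    ring

end Pool.Agent.Y283.WA
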